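import Mathlib

/-!
# Partitions of finite groups and vectors of representations
-/

set_option autoImplicit false

namespace Pool.Agent.X328.PB

open Finset

variable {G : Type*} [Group G] [Fintype G] {V : Type*} [AddCommGroup V] [Module ℚ V]
  (ρ : G →* Module.End ℚ V)

open Classical in
/-- The sum of the translates of `v` by the elements of the subgroup `H`. -/
noncomputable def nrm (H : Subgroup G) (v : V) : V := ∑ g : G with g ∈ H, ρ g v

open Classical in
lemma nrm_eq (H : Subgroup G) (v : V) :
    nrm ρ H v = ∑ g : G, if g ∈ H then ρ g v else 0 := by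
  unfold nrm
  rw [Finset.sum_filter]

open Classical in
lemma nrm_mul {K : Subgroup G} {h : G} (hh : h ∈ K) (v : V) :
    ∑ g : G with g ∈ K, ρ (g * h) v = nrm ρ K v := by
  unfold nrm
  refine Finset.sum_bij' (fun g _ => g * h) (fun g _ => g * h⁻¹) ?_ ?_ ?_ ?_ ?_
  · intro g hg
    simp only [Finset.mem_filter, Finset.mem_univ, true_and] at hg ⊢
    exact K.mul_mem hg hh
  · intro g hg
    simp only [Finset.mem_filter, Finset.mem_univ, true_and] at hg ⊢
    exact K.mul_mem hg (K.inv_mem hh)
  · intro g _; simp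
  · intro g _; simp
  · intro g _; rfl

open Classical in
lemma nrm_zero_of_le {H K : Subgroup G} (hHK : H ≤ K) {v : V} (h0 : nrm ρ H v = 0) :
    nrm ρ K v = 0 := by
  have h1 : ((Finset.univ.filter (fun g : G => g ∈ H)).card : ℚ) • nrm ρ K v = 0 := by
    have h2 : ∑ h : G with h ∈ H, ∑ g : G with g ∈ K, ρ (g * h) v =
        ((Finset.univ.filter (fun g : G => g ∈ H)).card : ℚ) • nrm ρ K v := by
      rw [Finset.sum_congr rfl (g := fun _ => nrm ρ K v), Finset.sum_const, Nat.cast_smul_eq_nsmul]
      intro h hh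
      simp only [Finset.mem_filter, Finset.mem_univ, true_and] at hh
      exact nrm_mul ρ (hHK hh) v
    rw [← h2, Finset.sum_comm]
    refine Finset.sum_eq_zero fun g _ => ?_
    have h3 : ∑ h : G with h ∈ H, ρ (g * h) v = ρ g (nrm ρ H v) := by
      unfold nrm
      rw [map_sum]
      refine Finset.sum_congr rfl fun h _ => ?_
      rw [map_mul]
      rfl
    rw [h3, h0, map_zero]
  rcases smul_eq_zero.1 h1 with h2 | h2
  · exfalso
    have h3 : (Finset.univ.filter (fun g : G => g ∈ H)).card = 0 := by exact_mod_cast h2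
    rw [Finset.card_eq_zero] at h3
    have h4 : (1 : G) ∈ Finset.univ.filter (fun g : G => g ∈ H) := by simp [H.one_mem]
    rw [h3] at h4
    simp at h4
  · exact h2

open Classical in
/-- **The identity of a partition.** -/
lemma sum_nrm {ι : Type*} [Fintype ι] (H : ι → Subgroup G) (K : Subgroup G)
    (hle : ∀ i, H i ≤ K) (hpart : ∀ k ∈ K, k ≠ 1 → ∃! i, k ∈ H i) (v : V) :
    ∑ i, nrm ρ (H i) v = ((Fintype.card ι : ℚ) - 1) • v + nrm ρ K v := by
  have h1 : ∀ g : G, ∑ i, (if g ∈ H i then ρ g v else 0) =
      (if g = 1 then ((Fintype.card ι : ℚ) - 1) • v else 0) + (if g ∈ K then ρ g v else 0) := by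
    intro g
    by_cases hg : g = 1
    · subst hg
      simp only [(H _).one_mem, K.one_mem, if_true, map_one, Module.End.one_apply,
        Finset.sum_const, Finset.card_univ]
      rw [sub_smul, one_smul, sub_add_cancel, Nat.cast_smul_eq_nsmul]
    · rw [if_neg hg, zero_add]
      by_cases hK : g ∈ K
      · rw [if_pos hK]
        obtain ⟨i, hi, hi'⟩ := hpart g hK hg
        rw [Finset.sum_eq_single i, if_pos hi]
        · intro j _ hj
          rw [if_neg]
          intro h
          exact hj (hi' j h)
        · simp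
      · rw [if_neg hK]
        refine Finset.sum_eq_zero fun i _ => ?_
        rw [if_neg]
        exact fun h => hK (hle i h)
  simp only [nrm_eq]
  rw [Finset.sum_comm, Finset.sum_congr rfl fun g _ => h1 g, Finset.sum_add_distrib]
  congr 1
  simp

/-- If a subgroup is partitioned into at least two subgroups, and the norms of the vector `v` for
the parts vanish, then `v` vanishes. -/
theorem eq_zero_of_partition {ι : Type*} [Fintype ι] (H : ι → Subgroup G) (K : Subgroup G)
    (hι : 2 ≤ Fintype.card ι) (hle : ∀ i, H i ≤ K) (hpart : ∀ k ∈ K, k ≠ 1 → ∃! i, k ∈ H i)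
    {v : V} (h0 : ∀ i, nrm ρ (H i) v = 0) : v = 0 := by
  have h1 := sum_nrm ρ H K hle hpart v
  have : Nonempty ι := Fintype.card_pos_iff.1 (by omega)
  have h2 : nrm ρ K v = 0 := nrm_zero_of_le ρ (hle (Classical.arbitrary ι)) (h0 _)
  rw [Finset.sum_congr rfl fun i _ => h0 i, Finset.sum_const_zero, h2, add_zero] at h1
  rcases smul_eq_zero.1 h1.symm with h3 | h3
  · exfalso
    have h4 : (2 : ℚ) ≤ Fintype.card ι := by exact_mod_cast hι
    linarith
  · exact h3

/-- An element of a subgroup of prime order different from one generates it. -/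
lemma zpowers_eq {P : Subgroup G} (hP : (Nat.card P).Prime) {g : G} (hg : g ∈ P) (h1 : g ≠ 1) :
    Subgroup.zpowers g = P := by
  have h2 : Subgroup.zpowers g ≤ P := by
    rw [Subgroup.zpowers_le]
    exact hg
  have h3 : Nat.card (Subgroup.zpowers g) ∣ Nat.card P := Subgroup.card_dvd_of_le h2
  rcases (Nat.dvd_prime hP).1 h3 with h4 | h4
  · exfalso
    rw [Nat.card_zpowers, orderOf_eq_one_iff] at h4
    exact h1 h4
  · exact Subgroup.eq_of_le_of_card_ge h2 h4.ge

/-- If all elements different from one of the subgroup `K` have prime order, and the order of `K` is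
neither one nor a prime number, then a vector vanishes if its norms vanish for the subgroups of `K`
of prime order. -/
theorem eq_zero_of_prime_orders (K : Subgroup G) (hK : ∀ k ∈ K, k ≠ 1 → (orderOf k).Prime)
    (h1 : Nat.card K ≠ 1) (hp : ¬ (Nat.card K).Prime) {v : V}
    (h0 : ∀ P : Subgroup G, P ≤ K → (Nat.card P).Prime → nrm ρ P v = 0) : v = 0 := by
  classical
  let ι := {P : Subgroup G // P ≤ K ∧ (Nat.card P).Prime}
  have : Finite (Subgroup G) := inferInstance
  have : Fintype ι := Fintype.ofFinite ι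
  have hex : ∀ k ∈ K, k ≠ 1 → ∃! i : ι, k ∈ i.1 := by
    intro k hk hk1
    refine ⟨⟨Subgroup.zpowers k, ?_, ?_⟩, Subgroup.mem_zpowers k, ?_⟩
    · rw [Subgroup.zpowers_le]; exact hk
    · rw [Nat.card_zpowers]; exact hK k hk hk1
    · rintro ⟨P, hP1, hP2⟩ hkP
      apply Subtype.ext
      exact (zpowers_eq hP2 hkP hk1).symm
  refine eq_zero_of_partition ρ (fun i : ι => i.1) K ?_ (fun i => i.2.1) hex
    (fun i => h0 i.1 i.2.1 i.2.2)
  -- at least two subgroups
  obtain ⟨k, hk, hk1⟩ : ∃ k ∈ K, k ≠ 1 := by
    by_contra hcon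
    push Not at hcon
    apply h1
    rw [Subgroup.card_eq_one]
    rw [Subgroup.eq_bot_iff_forall]
    exact hcon
  obtain ⟨i, hi, -⟩ := hex k hk hk1
  obtain ⟨k', hk', hk1'⟩ : ∃ k' ∈ K, k' ∉ i.1 := by
    by_contra hcon
    push Not at hcon
    have h2 : i.1 = K := le_antisymm i.2.1 hcon
    exact hp (h2 ▸ i.2.2)
  obtain ⟨j, hj, -⟩ := hex k' hk' (fun h => hk1' (h ▸ i.1.one_mem))
  have hij : i ≠ j := by
    rintro rfl
    exact hk1' hj
  have h3 : ({i, j} : Finset ι).card ≤ Fintype.card ι := Finset.card_le_univ _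
  rwa [Finset.card_pair hij] at h3

/-- A subgroup whose order is the product of two prime numbers, and which is not cyclic, satisfies
the hypotheses of `eq_zero_of_prime_orders`. -/
theorem prime_orders_of_card {K : Subgroup G} {p q : ℕ} (hp : p.Prime) (hq : q.Prime)
    (hK : Nat.card K = p * q) (hc : ¬ IsCyclic K) :
    (∀ k ∈ K, k ≠ 1 → (orderOf k).Prime) ∧ Nat.card K ≠ 1 ∧ ¬ (Nat.card K).Prime := by
  refine ⟨fun k hk hk1 => ?_, ?_, ?_⟩
  · have h1 : orderOf k ∣ p * q := by
      rw [← hK]
      have h0 : orderOf k = orderOf (⟨k, hk⟩ : K) := Subgroup.orderOf_coe (⟨k, hk⟩ : K)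
      rw [h0]
      exact orderOf_dvd_natCard _
    have h2 : orderOf k ≠ p * q := by
      intro h2
      apply hc
      refine isCyclic_of_orderOf_eq_card (⟨k, hk⟩ : K) ?_
      have h0 : orderOf k = orderOf (⟨k, hk⟩ : K) := Subgroup.orderOf_coe (⟨k, hk⟩ : K)
      rw [← h0, h2, hK]
    have h3 : orderOf k ≠ 1 := by rwa [Ne, orderOf_eq_one_iff]
    obtain ⟨a, b, ha, hb, hab⟩ := (Nat.dvd_mul).1 h1
    rcases (Nat.dvd_prime hp).1 ha with rfl | rfl <;> rcases (Nat.dvd_prime hq).1 hb with rfl | rfl
    · exact absurd hab.symm (by simpa using h3)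
    · rw [← hab, one_mul]; exact hq
    · rw [← hab, mul_one]; exact hp
    · exact absurd hab.symm h2
  · rw [hK]
    intro h
    exact hp.one_lt.ne' (Nat.eq_one_of_mul_eq_one_right h)
  · rw [hK]
    exact Nat.not_prime_mul hp.ne_one hq.ne_one

/-- The number of the elements of order dividing `n` of a commutative group. -/
lemma card_torsion {A : Type*} [CommGroup A] [Finite A]
    (h : ∀ p : ℕ, p.Prime → Nat.card {a : A // a ^ p = 1} ≤ p) (n : ℕ) (hn : 0 < n) :
    Nat.card {a : A // a ^ n = 1} ≤ n := by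
  induction n using Nat.recOnMul with
  | zero => omega
  | one =>
    have : Subsingleton {a : A // a ^ 1 = 1} := ⟨by
      rintro ⟨a, ha⟩ ⟨b, hb⟩
      apply Subtype.ext
      change a = b
      have ha' : a = 1 := by rwa [pow_one] at ha
      have hb' : b = 1 := by rwa [pow_one] at hb
      rw [ha', hb']⟩
    exact Finite.card_le_one_iff_subsingleton.2 this
  | prime p hp => exact h p hp
  | mul a b iha ihb =>
    have ha : 0 < a := Nat.pos_of_ne_zero (by rintro rfl; simp at hn)
    have hb : 0 < b := Nat.pos_of_ne_zero (by rintro rfl; simp at hn)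
    -- the map x ↦ x ^ a from the (a b)-torsion to the b-torsion
    let f : {x : A // x ^ (a * b) = 1} → {x : A // x ^ b = 1} :=
      fun x => ⟨x.1 ^ a, by rw [← pow_mul]; exact x.2⟩
    have h1 : Nat.card {x : A // x ^ (a * b) = 1} ≤
        Nat.card {x : A // x ^ b = 1} * Nat.card {x : A // x ^ a = 1} := by
      classical
      have : Fintype {x : A // x ^ (a * b) = 1} := Fintype.ofFinite _
      have : Fintype {x : A // x ^ b = 1} := Fintype.ofFinite _
      have : Fintype {x : A // x ^ a = 1} := Fintype.ofFinite _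
      rw [Nat.card_eq_fintype_card, Nat.card_eq_fintype_card, Nat.card_eq_fintype_card]
      rw [mul_comm (Fintype.card {x : A // x ^ b = 1}), ← Finset.card_univ,
        ← Finset.card_univ (α := {x : A // x ^ b = 1})]
      refine (Finset.card_le_mul_card_image_of_maps_to (f := f)
        (t := Finset.univ) (fun x _ => Finset.mem_univ _) _ ?_)
      intro y _
      by_cases hne : (Finset.univ.filter (fun x => f x = y)).Nonempty
      · obtain ⟨x0, hx0⟩ := hne
        simp only [Finset.mem_filter, Finset.mem_univ, true_and] at hx0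
        rw [← Finset.card_univ]
        refine Finset.card_le_card_of_injOn (fun x => if hx : (x.1 / x0.1) ^ a = 1 then
          ⟨x.1 / x0.1, hx⟩ else ⟨1, one_pow a⟩) (fun _ _ => Finset.mem_univ _) ?_
        intro x hx x' hx' hxx
        simp only [Finset.coe_filter, Finset.mem_univ, true_and, Set.mem_setOf_eq] at hx hx'
        have e1 : (x.1 / x0.1) ^ a = 1 := by
          rw [div_pow, div_eq_one]
          exact congrArg Subtype.val (hx.trans hx0.symm)
        have e2 : (x'.1 / x0.1) ^ a = 1 := by
          rw [div_pow, div_eq_one]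
          exact congrArg Subtype.val (hx'.trans hx0.symm)
        simp only [dif_pos e1, dif_pos e2, Subtype.mk.injEq, div_left_inj] at hxx
        exact Subtype.ext hxx
      · rw [Finset.not_nonempty_iff_eq_empty] at hne
        rw [hne]
        simp
    calc _ ≤ _ := h1
      _ ≤ b * a := Nat.mul_le_mul (ihb hb) (iha ha)
      _ = a * b := mul_comm _ _

/-- A finite commutative group with at most `p` elements of order dividing `p`, for all prime
numbers `p`, is cyclic. -/
lemma isCyclic_of_torsion {A : Type*} [CommGroup A] [Finite A]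
    (h : ∀ p : ℕ, p.Prime → Nat.card {a : A // a ^ p = 1} ≤ p) : IsCyclic A := by
  classical
  have : Fintype A := Fintype.ofFinite A
  refine isCyclic_of_card_pow_eq_one_le fun n hn => ?_
  have := card_torsion h n hn
  rwa [Nat.card_eq_fintype_card, Fintype.card_subtype] at this

lemma rep_mul (g h : G) (v : V) : ρ (g * h) v = ρ g (ρ h v) := by
  rw [map_mul]
  rfl

omit [Fintype G] in
lemma card_zpowers_prime [Finite G] {g : G} (hg : g ≠ 1) :
    ∃ P : Subgroup G, (Nat.card P).Prime ∧ P ≤ Subgroup.zpowers g := by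
  have h1 : orderOf g ≠ 1 := by rwa [Ne, orderOf_eq_one_iff]
  obtain ⟨p, hp, hpd⟩ := Nat.exists_prime_and_dvd h1
  refine ⟨Subgroup.zpowers (g ^ (orderOf g / p)), ?_, ?_⟩
  · rw [Nat.card_zpowers, orderOf_pow_of_dvd (Nat.div_pos (Nat.le_of_dvd (orderOf_pos g) hpd)
      hp.pos).ne' (Nat.div_dvd_of_dvd hpd)]
    rw [Nat.div_div_self hpd (orderOf_pos g).ne']
    exact hp
  · rw [Subgroup.zpowers_le]
    exact Subgroup.npow_mem_zpowers g _

open Classical in
/-- an element which fixes the vector is trivial, if the norms for the subgroups of prime order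
vanish -/
lemma eq_one_of_fixes {v : V} (hv : v ≠ 0)
    (h0 : ∀ P : Subgroup G, (Nat.card P).Prime → nrm ρ P v = 0) {g : G} (hg : ρ g v = v) :
    g = 1 := by
  by_contra hg1
  obtain ⟨P, hP, hPg⟩ := card_zpowers_prime hg1
  have h1 := h0 P hP
  have hfix : ∀ h ∈ P, ρ h v = v := by
    intro h hh
    have h2 : h ∈ Subgroup.zpowers g := hPg hh
    rw [mem_zpowers_iff_mem_range_orderOf, Finset.mem_image] at h2
    obtain ⟨n, -, rfl⟩ := h2
    clear hh
    induction n with
    | zero => rw [pow_zero, map_one]; rfl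
    | succ n ih => rw [pow_succ, rep_mul, hg, ih]
  have h3 : nrm ρ P v = (((Finset.univ.filter fun g : G => g ∈ P).card : ℕ) : ℚ) • v := by
    unfold nrm
    rw [Finset.sum_congr rfl (g := fun _ => v), Finset.sum_const, Nat.cast_smul_eq_nsmul]
    intro h hh
    simp only [Finset.mem_filter, Finset.mem_univ, true_and] at hh
    exact hfix h hh
  rw [h3] at h1
  rcases smul_eq_zero.1 h1 with h4 | h4
  · have h5 : (Finset.univ.filter fun g : G => g ∈ P).card = 0 := by exact_mod_cast h4
    rw [Finset.card_eq_zero] at h5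
    have h6 : (1 : G) ∈ Finset.univ.filter fun g : G => g ∈ P := by simp [P.one_mem]
    rw [h5] at h6
    simp at h6
  · exact hv h4

open Classical in
/-- an involution with vanishing norm acts as `-1` -/
lemma involution_neg {v : V} {σ : G} (hσ : orderOf σ = 2)
    (h1 : nrm ρ (Subgroup.zpowers σ) v = 0) : ρ σ v = -v := by
  have h2 : (Finset.univ.filter fun g : G => g ∈ Subgroup.zpowers σ) = {1, σ} := by
    ext g
    simp only [Finset.mem_filter, Finset.mem_univ, true_and, Finset.mem_insert,
      Finset.mem_singleton]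
    rw [mem_zpowers_iff_mem_range_orderOf, hσ]
    simp only [Finset.mem_image, Finset.mem_range]
    constructor
    · rintro ⟨i, hi, rfl⟩
      interval_cases i
      · left; simp
      · right; simp
    · rintro (rfl | rfl)
      · exact ⟨0, by norm_num, by simp⟩
      · exact ⟨1, by norm_num, by simp⟩
  have hne : (1 : G) ≠ σ := by
    rintro rfl
    rw [orderOf_one] at hσ
    norm_num at hσ
  unfold nrm at h1
  rw [h2, Finset.sum_pair hne, map_one, Module.End.one_apply] at h1
  exact (neg_eq_of_add_eq_zero_right h1).symm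

/-- **The structure of a group which acts such that all norms for the subgroups of prime order
vanish on a non-zero vector.** -/
theorem structure_of_group {v : V} (hv : v ≠ 0)
    (h0 : ∀ P : Subgroup G, (Nat.card P).Prime → nrm ρ P v = 0) :
    (∀ g h : G, ρ g v = ρ h v → g = h) ∧
    (∀ (K : Subgroup G) (p q : ℕ), p.Prime → q.Prime → Nat.card K = p * q → IsCyclic K) ∧
    (∀ K : Subgroup G, (∀ a ∈ K, ∀ b ∈ K, a * b = b * a) → IsCyclic K) ∧
    ∀ σ τ : G, orderOf σ = 2 → orderOf τ = 2 → σ = τ := by
  refine ⟨?_, ?_, ?_, ?_⟩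
  · intro g h hgh
    have h2 : ρ (h⁻¹ * g) v = v := by
      rw [rep_mul, hgh, ← rep_mul, inv_mul_cancel, map_one]
      rfl
    have h3 := eq_one_of_fixes ρ hv h0 h2
    rw [inv_mul_eq_one] at h3
    exact h3.symm
  · intro K p q hp hq' hK
    by_contra hc
    obtain ⟨h1, h2, h3⟩ := prime_orders_of_card hp hq' hK hc
    exact hv (eq_zero_of_prime_orders ρ K h1 h2 h3 fun P _ hP => h0 P hP)
  · intro K hK
    let _ : CommGroup K := { (inferInstance : Group K) with
      mul_comm := fun a b => Subtype.ext (hK a.1 a.2 b.1 b.2) }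
    refine isCyclic_of_torsion fun p hp => ?_
    by_contra hcon
    push Not at hcon
    have : Fact p.Prime := ⟨hp⟩
    -- the subgroup of the elements of order dividing `p`
    let T : Subgroup G :=
      { carrier := {a | a ∈ K ∧ a ^ p = 1}
        one_mem' := ⟨K.one_mem, one_pow p⟩
        mul_mem' := by
          rintro a b ⟨ha, ha'⟩ ⟨hb, hb'⟩
          refine ⟨K.mul_mem ha hb, ?_⟩
          rw [(show Commute a b from hK a ha b hb).mul_pow, ha', hb', one_mul]
        inv_mem' := by
          rintro a ⟨ha, ha'⟩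
          refine ⟨K.inv_mem ha, ?_⟩
          rw [inv_pow, ha', inv_one] }
    have hT : ∀ a ∈ T, a ≠ 1 → orderOf a = p := fun a ha ha1 =>
      orderOf_eq_prime ha.2 ha1
    have hcard : Nat.card T = Nat.card {a : K // a ^ p = 1} := by
      refine Nat.card_congr ⟨fun a => ⟨⟨a.1, a.2.1⟩, Subtype.ext (by simpa using a.2.2)⟩,
        fun a => ⟨a.1.1, a.1.2, by simpa using congrArg Subtype.val a.2⟩, fun a => rfl,
        fun a => rfl⟩
    have hT1 : Nat.card T ≠ 1 := by
      intro h
      rw [hcard] at h
      have := hp.one_lt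
      omega
    refine hv (eq_zero_of_prime_orders ρ T (fun a ha ha1 => by
      rw [hT a ha ha1]; exact hp) hT1 ?_ fun P _ hP => h0 P hP)
    intro hTp
    obtain ⟨a, ha, ha1⟩ : ∃ a ∈ T, a ≠ 1 := by
      by_contra hcon2
      push Not at hcon2
      apply hT1
      rw [Subgroup.card_eq_one, Subgroup.eq_bot_iff_forall]
      exact hcon2
    have h1 := zpowers_eq hTp ha ha1
    have h2 : Nat.card T = p := by
      rw [← h1, Nat.card_zpowers, hT a ha ha1]
    rw [hcard] at h2
    omega
  · intro σ τ hσ hτ
    have hinv : ∀ σ : G, orderOf σ = 2 → ρ σ v = -v := fun σ hσ =>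
      involution_neg ρ hσ (h0 _ (by rw [Nat.card_zpowers, hσ]; exact Nat.prime_two))
    have h1 : ρ (σ * τ) v = v := by
      rw [rep_mul, hinv τ hτ, map_neg, hinv σ hσ, neg_neg]
    have h2 := eq_one_of_fixes ρ hv h0 h1
    have h3 : τ * τ = 1 := by
      have := pow_orderOf_eq_one τ
      rwa [hτ, pow_two] at this
    calc σ = σ * (τ * τ) := by rw [h3, mul_one]
      _ = (σ * τ) * τ := by rw [mul_assoc]
      _ = τ := by rw [h2, one_mul]

end Pool.Agent.X328.PB
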