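import Pool.Agent.X307.PG.Exch
import Pool.Agent.X328.PB.Alg

/-!
# Finite groups of automorphisms of a surface, modulo degenerate correspondences
-/

open CategoryTheory AlgebraicGeometry

universe u v w

namespace Pool.Agent.X328.PB

open Pool.Agent.H914 Pool.Agent.H914.VarClass Pool.Agent.H914.VarClass.Obj Pool.Agent.W492.BB
  Pool.Agent.W550.Corr Pool.Agent.TH133 Pool.Agent.Y152.AS Pool.Agent.X307.BV
  Pool.Agent.X307.PG

variable {k : Type u} [Field k] {𝒱 : VarClass k} {C : TheoryData.{u, v, 0} 𝒱 ℚ}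
  [hC : IsChowProj C]

/-- Composition with the graph of an automorphism, modulo degenerate correspondences. -/
noncomputable def compGraph (X : 𝒱.Obj) (hX : X.dim = 2) (g : Aut X) :
    Module.End ℚ (C.A (X.prod X) ⧸ degenerate C X X) :=
  (degenerate C X X).mapQ (degenerate C X X)
    ((compL C (X := X) (Y := X) (Z := X)).flip (C.graph g.hom))
    (fun _ hW => degenerate_comp_right hX hW (graph_mem2 hX hX g.hom))

lemma compGraph_mk (X : 𝒱.Obj) (hX : X.dim = 2) (g : Aut X) (Z : C.A (X.prod X)) :
    compGraph X hX g (Submodule.Quotient.mk Z) =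
      Submodule.Quotient.mk (C.comp Z (C.graph g.hom)) := rfl

/-- The representation. -/
noncomputable def rep (X : 𝒱.Obj) (hX : X.dim = 2) {G : Type w} [Group G] (ρ : G →* Aut X) :
    G →* Module.End ℚ (C.A (X.prod X) ⧸ degenerate C X X) where
  toFun g := compGraph X hX (ρ g)
  map_one' := by
    ext Z
    change compGraph X hX (ρ 1) (Submodule.Quotient.mk Z) = _
    rw [compGraph_mk, map_one]
    change _ = Submodule.Quotient.mk Z
    have h1 : C.graph (1 : Aut X).hom = dg C X := rfl
    rw [h1, comp_dg]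
  map_mul' g h := by
    ext Z
    change compGraph X hX (ρ (g * h)) (Submodule.Quotient.mk Z) =
      compGraph X hX (ρ g) (compGraph X hX (ρ h) (Submodule.Quotient.mk Z))
    rw [compGraph_mk, compGraph_mk, compGraph_mk, map_mul, comp_assoc, graph_comp]
    rfl

lemma rep_dg (X : 𝒱.Obj) (hX : X.dim = 2) {G : Type w} [Group G] (ρ : G →* Aut X) (g : G) :
    rep X hX ρ g (Submodule.Quotient.mk (dg C X)) =
      Submodule.Quotient.mk (C.graph (ρ g).hom) := by
  change compGraph X hX (ρ g) (Submodule.Quotient.mk (dg C X)) = _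
  rw [compGraph_mk, dg_comp]

open Classical in
lemma nrm_dg (X : 𝒱.Obj) (hX : X.dim = 2) {G : Type w} [Group G] [Fintype G] (ρ : G →* Aut X)
    (H : Subgroup G) :
    nrm (rep X hX ρ) H (Submodule.Quotient.mk (dg C X)) =
      Submodule.Quotient.mk (∑ g : G with g ∈ H, C.graph (ρ g).hom) := by
  unfold nrm
  rw [Finset.sum_congr rfl fun g _ => rep_dg X hX ρ g]
  exact (map_sum (degenerate C X X).mkQ _ _).symm

omit hC in
lemma mk_eq_zero {X : 𝒱.Obj} [IsChowProj C] (Z : C.A (X.prod X)) :
    (Submodule.Quotient.mk Z : C.A (X.prod X) ⧸ degenerate C X X) = 0 ↔ IsDegenerate C Z := by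
  rw [Submodule.Quotient.mk_eq_zero, isDegenerate_iff]

/-- The vector of the diagonal spans: if it vanishes then everything is degenerate. -/
lemma graph_degenerate {X : 𝒱.Obj} (hX : X.dim = 2) (h : IsDegenerate C (dg C X)) (f : X ⟶ X) :
    IsDegenerate C (C.graph f) := by
  rw [isDegenerate_iff] at h ⊢
  have := degenerate_comp_right hX h (graph_mem2 hX hX f)
  rwa [dg_comp] at this

end Pool.Agent.X328.PB
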